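import Pool.Agent.Helper20.KP.StHB

/-!
# Project KP (MP_26be5b_ag), chapter H, bridge: elementary facts
-/

set_option autoImplicit false

namespace Pool.Agent.Helper6.KP

open MeasureTheory Filter Pool.Agent.Helper52.KP Pool.Agent.Helper67.NO Pool.Agent.Helper20.KP
open scoped Topology

universe u

section aux

variable {g : Type u} [LieRing g] [LieAlgebra ℂ g] [FiniteDimensional ℂ g]

private lemma co_eq (x : g) : co x = (Module.finBasis ℂ g).equivFun x := by
  funext i
  rw [Module.Basis.equivFun_apply]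
  rfl

private lemma co_ic (v : Fin (Module.finrank ℂ g) → ℂ) : co (ic v : g) = v := by
  rw [co_eq]
  exact (Module.finBasis ℂ g).equivFun.apply_symm_apply v

private lemma ic_co (x : g) : ic (co x) = x := by
  rw [co_eq]
  exact (Module.finBasis ℂ g).equivFun.symm_apply_apply x

private lemma co_inj {x y : g} (h : co x = co y) : x = y := by
  rw [← ic_co x, h, ic_co]

private lemma co_smul (c : ℂ) (x : g) : co (c • x) = c • co x := by
  rw [co_eq, co_eq, map_smul]

private lemma co_zero : co (0 : g) = 0 := by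
  rw [co_eq, map_zero]

private lemma sum_co (x : g) : x = ∑ l, co x l • (Module.finBasis ℂ g l) := by
  have h := (Module.finBasis ℂ g).sum_equivFun x
  rw [← co_eq] at h
  exact h.symm

private lemma eval_admN (x : g) : (admN g).map (MvPolynomial.eval (co x)) =
    LinearMap.toMatrix (Module.finBasis ℂ g) (Module.finBasis ℂ g)
      (LieAlgebra.ad ℂ g x : g →ₗ[ℂ] g) := by
  have h1 : (LinearMap.toMatrix (Module.finBasis ℂ g) (Module.finBasis ℂ g)
      (LieAlgebra.ad ℂ g x : g →ₗ[ℂ] g)) = ∑ l, co x l •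
        (LinearMap.toMatrix (Module.finBasis ℂ g) (Module.finBasis ℂ g)
          (LieAlgebra.ad ℂ g (Module.finBasis ℂ g l) : g →ₗ[ℂ] g)) := by
    have h2 : (LieAlgebra.ad ℂ g x : g →ₗ[ℂ] g) =
        ∑ l, co x l • (LieAlgebra.ad ℂ g (Module.finBasis ℂ g l) : g →ₗ[ℂ] g) := by
      conv_lhs => rw [sum_co x]
      rw [map_sum]
      simp only [map_smul]
    rw [h2, map_sum]
    simp only [map_smul]
  rw [h1]
  ext i j
  simp only [admN, Matrix.map_apply, Matrix.sum_apply, Matrix.smul_apply, map_sum, smul_eq_mul,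
    map_mul, MvPolynomial.eval_X, MvPolynomial.eval_C]

private lemma eval_Q {m : ℕ} (a b : Fin m → Fin (Module.finrank ℂ g)) (x : g) :
    MvPolynomial.eval (co x) (((admN g).submatrix a b).det) = mnr a b x := by
  rw [RingHom.map_det, RingHom.mapMatrix_apply, ← Matrix.submatrix_map, eval_admN]
  rfl

private lemma orb_zero {y : g} (h : Orb (0 : g) y) : y = 0 := by
  induction h with
  | base => rfl
  | step y x _ ih => rw [ih, map_zero]

end aux

theorem hHB1 (hORB : StORB.{u}) : StHB1.{u} := by
  intro g _ _ _ _ x₀ hx₀ hnil C D hD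
  obtain ⟨-, -, ho3, -, -, -, ho7⟩ := hORB g
  have hph : ∀ z, (mkOD C).ph z = co (C.Φ z) := by
    intro z
    funext i
    exact (C.pol_spec i z).symm
  have hphf : (mkOD C).ph = fun z => co (C.Φ z) := funext hph
  subst hD
  refine ⟨co_ic, ic_co, hph, ?_, ?_, ?_, ?_, C.Δ0, C.J0, ?_, ?_⟩
  · intro x
    constructor
    · rintro ⟨i, hi⟩
      have h1 : mnr ((Fintype.equivFin _).symm i).1 ((Fintype.equivFin _).symm i).2 x ≠ 0 := by
        rw [← eval_Q]
        exact hi
      unfold mns
      refine Finset.sum_pos' (fun a _ => Finset.sum_nonneg fun b _ => norm_nonneg _)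
        ⟨((Fintype.equivFin _).symm i).1, Finset.mem_univ _, ?_⟩
      exact Finset.sum_pos' (fun b _ => norm_nonneg _)
        ⟨((Fintype.equivFin _).symm i).2, Finset.mem_univ _, norm_pos_iff.2 h1⟩
    · intro h
      by_contra hcon
      push Not at hcon
      have h1 : mns C.m x = 0 := by
        unfold mns
        refine Finset.sum_eq_zero fun a _ => Finset.sum_eq_zero fun b _ => ?_
        rw [norm_eq_zero]
        have h2 := hcon (Fintype.equivFin _ (a, b))
        have h3 : (mkOD C).Q (Fintype.equivFin _ (a, b)) = ((admN g).submatrix a b).det := by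
          simp only [mkOD, Equiv.symm_apply_apply]
        rw [h3, eval_Q] at h2
        exact h2
      rw [h1] at h
      exact lt_irrefl _ h
  · have h1 := C.hm
    have h2 := C.hn
    change 2 ≤ C.m
    omega
  · rintro ⟨y, hy, hy0⟩
    have hy' : y = 0 := co_inj (by rw [hy0]; exact co_zero.symm)
    rw [hy'] at hy
    exact hx₀ (orb_zero (ho3 x₀ 0 hy).1)
  · rintro x ⟨y, hy, rfl⟩ c hc
    exact ⟨c • y, (ho7 x₀ y hx₀ hnil hy).2 c hc, co_smul c y⟩
  · intro z hz
    rw [hph]
    exact ⟨C.Φ z, C.orb z hz, rfl⟩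
  · intro z hz
    rw [hphf]
    have h1 := C.imm z hz
    have h2 : Function.Injective ((fderiv ℂ (fun z => co (C.Φ z)) z :
        (Fin C.m → ℂ) →ₗ[ℂ] (Fin (Module.finrank ℂ g) → ℂ))) := by
      rw [injective_iff_map_eq_zero]
      intro ξ hξ
      have h3 : ξ = ∑ i, ξ i • (Pi.single i (1 : ℂ) : Fin C.m → ℂ) := by
        funext j
        simp [Finset.sum_apply, Pi.single_apply]
      rw [h3, map_sum] at hξ
      simp only [map_smul] at hξ
      have h4 := Fintype.linearIndependent_iff.1 h1 ξ hξ
      funext i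
      exact h4 i
    exact h2

end Pool.Agent.Helper6.KP
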