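import Pool.Agent.Helper20.KP.StH

/-!
# Project KP (MP_26be5b_ag), chapter H: existence of a finite projection
-/

set_option autoImplicit false

namespace Pool.Agent.Helper6.KP

open MeasureTheory Filter Pool.Agent.Helper52.KP Pool.Agent.Helper20.KP
open scoped Topology

/-- a linear map with a given one-dimensional kernel -/
private lemma proj_ker {p : ℕ} (v : Fin (p + 1) → ℂ) (hv : v ≠ 0) :
    ∃ π : (Fin (p + 1) → ℂ) →ₗ[ℂ] (Fin p → ℂ), ∀ u, π u = 0 → ∃ c : ℂ, u = c • v := by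
  obtain ⟨i, hi⟩ : ∃ i, v i ≠ 0 := by
    by_contra h
    push Not at h
    exact hv (funext h)
  refine ⟨LinearMap.pi fun j => LinearMap.proj (i.succAbove j) -
    (v (i.succAbove j) / v i) • LinearMap.proj i, fun u hu => ⟨u i / v i, ?_⟩⟩
  funext k
  simp only [Pi.smul_apply, smul_eq_mul]
  rcases Fin.eq_self_or_eq_succAbove i k with h | ⟨j, h⟩
  · rw [h, div_mul_cancel₀ _ hi]
  · have h1 := congrFun hu j
    simp only [LinearMap.pi_apply, LinearMap.sub_apply, LinearMap.proj_apply,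
      LinearMap.smul_apply, smul_eq_mul, Pi.zero_apply] at h1
    rw [h, sub_eq_zero.1 h1]
    ring

private lemma step_HEX (hNI : StHNI) {N m p : ℕ} (hmp : m ≤ p) (K : Set (Fin N → ℂ))
    (hK : ∀ x ∈ K, ∀ c : ℂ, c ≠ 0 → c • x ∈ K) (b : ℕ → (Fin m → ℂ) → (Fin N → ℂ))
    (hb : ∀ i, Differentiable ℂ (b i)) (hKb : K ⊆ ⋃ i, Set.range (b i))
    (A : (Fin m → ℂ) →L[ℂ] (Fin N → ℂ))
    (h : ∃ L : (Fin N → ℂ) →ₗ[ℂ] (Fin (p + 1) → ℂ), (∀ x ∈ K, L x = 0 → x = 0) ∧
      Function.Injective (fun ξ => L (A ξ))) :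
    ∃ L : (Fin N → ℂ) →ₗ[ℂ] (Fin p → ℂ), (∀ x ∈ K, L x = 0 → x = 0) ∧
      Function.Injective (fun ξ => L (A ξ)) := by
  obtain ⟨L, hL1, hL2⟩ := h
  have hLd : Differentiable ℂ (fun x => L x) := L.toContinuousLinearMap.differentiable
  have hn1 : ∀ i, volume (Set.range fun s => L (b i s)) = 0 := fun i =>
    hNI m (p + 1) (by omega) _ (hLd.comp (hb i))
  have hn2 : volume (Set.range fun s => L (A s)) = 0 :=
    hNI m (p + 1) (by omega) _ (hLd.comp A.differentiable)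
  have hn3 : volume ((⋃ i, Set.range fun s => L (b i s)) ∪ Set.range fun s => L (A s)) = 0 :=
    measure_union_null (measure_iUnion_null hn1) hn2
  obtain ⟨v, hv⟩ : ∃ v, v ∉ (⋃ i, Set.range fun s => L (b i s)) ∪ Set.range fun s => L (A s) := by
    by_contra hcon
    push Not at hcon
    have huniv : ((⋃ i, Set.range fun s => L (b i s)) ∪ Set.range fun s => L (A s)) =
      (Set.univ : Set (Fin (p + 1) → ℂ)) := Set.eq_univ_of_forall hcon
    rw [huniv] at hn3
    exact (isOpen_univ.measure_pos volume Set.univ_nonempty).ne' hn3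
  have hvK : ∀ x ∈ K, L x ≠ v := by
    intro x hx hxv
    apply hv
    left
    obtain ⟨i, hi⟩ := Set.mem_iUnion.1 (hKb hx)
    obtain ⟨s, hs⟩ := hi
    exact Set.mem_iUnion.2 ⟨i, s, by simp only [hs, hxv]⟩
  have hvT : ∀ s, L (A s) ≠ v := fun s hs => hv (Or.inr ⟨s, hs⟩)
  have hv0 : v ≠ 0 := by
    intro h0
    apply hvT 0
    rw [h0, map_zero, map_zero]
  obtain ⟨π, hπ⟩ := proj_ker v hv0
  have hker : ∀ (c : ℂ) (x : Fin N → ℂ), L x = c • v → c ≠ 0 → L (c⁻¹ • x) = v := by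
    intro c x hx hc
    rw [map_smul, hx, smul_smul, inv_mul_cancel₀ hc, one_smul]
  refine ⟨π ∘ₗ L, ?_, ?_⟩
  · intro x hx h0
    obtain ⟨c, hc⟩ := hπ (L x) h0
    by_cases hc0 : c = 0
    · apply hL1 x hx
      rw [hc, hc0, zero_smul]
    · exact absurd (hker c x hc hc0) (hvK _ (hK x hx _ (inv_ne_zero hc0)))
  · have hinj : Function.Injective ((π ∘ₗ L) ∘ₗ (A : (Fin m → ℂ) →ₗ[ℂ] (Fin N → ℂ))) := by
      rw [injective_iff_map_eq_zero]
      intro ξ h0
      obtain ⟨c, hc⟩ := hπ (L (A ξ)) h0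
      by_cases hc0 : c = 0
      · apply hL2
        simp only [hc, hc0, zero_smul, map_zero]
      · have h1 := hker c (A ξ) hc hc0
        rw [← map_smul] at h1
        exact absurd h1 (hvT _)
    exact hinj

theorem hHEX (hNI : StHNI) (hCV : StHCV) : StHEX := by
  intro D hD
  obtain ⟨b, hb, hKb⟩ := hCV D hD
  obtain ⟨z, hz⟩ : ∃ z, z ∈ D.U := by
    by_contra h
    push Not at h
    apply hD.Δ0
    apply MvPolynomial.funext
    intro x
    have h1 := h x
    simp only [OD.U, Set.mem_ofPred_eq, not_not] at h1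
    simpa using h1
  have hK : ∀ x ∈ closure D.O, ∀ c : ℂ, c ≠ 0 → c • x ∈ closure D.O := by
    intro x hx c hc
    exact map_mem_closure (continuous_const_smul c) hx (fun y hy => hD.cone y hy c hc)
  obtain ⟨A, hA⟩ : ∃ A : (Fin D.m → ℂ) →L[ℂ] (Fin D.N → ℂ), A = fderiv ℂ D.ph z := ⟨_, rfl⟩
  have hAi : Function.Injective A := by
    rw [hA]
    exact hD.imm z hz
  have hmN : D.m ≤ D.N := by
    have h1 := LinearMap.finrank_le_finrank_of_injective
      (f := (A : (Fin D.m → ℂ) →ₗ[ℂ] (Fin D.N → ℂ))) hAi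
    simpa using h1
  have key : ∀ d p : ℕ, p + d = D.N → D.m ≤ p →
      ∃ L : (Fin D.N → ℂ) →ₗ[ℂ] (Fin p → ℂ), (∀ x ∈ closure D.O, L x = 0 → x = 0) ∧
        Function.Injective (fun ξ => L (A ξ)) := by
    intro d
    induction d with
    | zero =>
      intro p hp hmp
      have hp' : p = D.N := by omega
      rw [hp']
      exact ⟨LinearMap.id, fun x _ h => h, hAi⟩
    | succ d ih =>
      intro p hp hmp
      exact step_HEX hNI hmp (closure D.O) hK b hb hKb A (ih (p + 1) (by omega) (by omega))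
  obtain ⟨L, h1, h2⟩ := key (D.N - D.m) D.m (by omega) le_rfl
  refine ⟨L, h1, z, hz, ?_⟩
  rw [← hA]
  exact h2

end Pool.Agent.Helper6.KP
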