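import Pool.Agent.Helper52.KP.StM

/-!
# Project KP (MP_26be5b_ag): pairing
-/

set_option autoImplicit false

namespace Pool.Agent.Helper6.KP

open MeasureTheory Filter Pool.Agent.Helper52.KP
open scoped ContDiff ComplexOrder Topology

private lemma amgm {x κ h t : ℝ} (hx : 0 ≤ x) (hκ : 0 ≤ κ) (hh : 0 ≤ h) (ht : 0 < t)
    (hxx : x ^ 2 ≤ κ * h) : x ≤ (t * κ + h / t) / 2 := by
  have e : κ * h = (t * κ) * (h / t) := by field_simp
  have h1 : x ^ 2 ≤ ((t * κ + h / t) / 2) ^ 2 := by
    nlinarith [sq_nonneg (t * κ - h / t)]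
  have h2 : 0 ≤ (t * κ + h / t) / 2 := by positivity
  exact (pow_le_pow_iff_left₀ hx h2 two_ne_zero).1 h1

private lemma hf_nonneg {m : ℕ} {A : Matrix (Fin m) (Fin m) ℂ} (hA : Pd A) (ξ : Fin m → ℂ) :
    0 ≤ hf A ξ := by
  by_cases h : ξ = 0
  · subst h
    simp [hf]
  · exact (hA.2 ξ h).le

private lemma sq_le_of_forall {x A B : ℝ} (hx : 0 ≤ x) (hA : 0 ≤ A) (hB : 0 ≤ B)
    (h : ∀ t : ℝ, 0 < t → x ≤ (t * A + B / t) / 2) : x ^ 2 ≤ A * B := by
  have h1 : ∀ t : ℝ, 0 ≤ A * (t * t) + (-(2 * x)) * t + B := by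
    intro t
    rcases le_or_gt t 0 with ht | ht
    · have : 0 ≤ A * (t * t) := mul_nonneg hA (mul_self_nonneg t)
      nlinarith
    · have h2 := h t ht
      have h3 : x * t ≤ (t * A + B / t) / 2 * t := mul_le_mul_of_nonneg_right h2 ht.le
      have h4 : (t * A + B / t) / 2 * t = (A * (t * t) + B) / 2 := by field_simp
      rw [h4] at h3
      linarith
  have h5 := discrim_le_zero h1
  unfold discrim at h5
  nlinarith

private lemma open_U (C : Cone) : IsOpen C.U :=
  isOpen_compl_singleton.preimage (MvPolynomial.continuous_eval C.Δ)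

/-- the product of a cutoff function and a smooth function is a test function -/
private lemma tst_mul {m : ℕ} {U : Set (Fin m → ℂ)} (hU : IsOpen U) {χ : (Fin m → ℂ) → ℝ}
    (h1 : ContDiff ℝ ∞ χ) (h2 : HasCompactSupport χ) (h3 : tsupport χ ⊆ U)
    {G : (Fin m → ℂ) → ℂ} (hG : ContDiffOn ℝ ∞ G U) : Tst U (fun z => cf χ z * G z) := by
  have hs : Function.support (fun z => cf χ z * G z) ⊆ tsupport χ := by
    intro z hz
    apply subset_tsupport
    intro h0
    apply hz
    simp [cf, h0]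
  refine ⟨?_, ?_, ?_⟩
  · rw [contDiff_iff_contDiffAt]
    intro z
    by_cases hz : z ∈ tsupport χ
    · have hc : ContDiff ℝ ∞ (cf χ) := Complex.ofRealCLM.contDiff.comp h1
      exact hc.contDiffAt.mul (hG.contDiffAt (hU.mem_nhds (h3 hz)))
    · have h0 := notMem_tsupport_iff_eventuallyEq.1 hz
      have h4 : (fun z => cf χ z * G z) =ᶠ[𝓝 z] fun _ => 0 := by
        filter_upwards [h0] with y hy
        have : χ y = 0 := hy
        simp [cf, this]
      exact contDiffAt_const.congr_of_eventuallyEq h4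
  · exact HasCompactSupport.of_support_subset_isCompact h2 hs
  · exact (closure_minimal hs (isClosed_tsupport _)).trans h3

private lemma db_zero {m : ℕ} (j : Fin m) (φ : (Fin m → ℂ) → ℂ) (z : Fin m → ℂ)
    (hz : z ∉ tsupport φ) : db j φ z = 0 := by
  have h : fderiv ℝ φ z = 0 := by
    by_contra h
    exact hz (support_fderiv_subset ℝ h)
  simp [db, h]

private lemma db_cont {m : ℕ} (j : Fin m) {φ : (Fin m → ℂ) → ℂ} (h : ContDiff ℝ ∞ φ) :
    Continuous (db j φ) := by
  have h1 : Continuous (fderiv ℝ φ) := h.continuous_fderiv (by simp)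
  unfold db
  fun_prop

/-- integrability against test functions -/
private lemma int_test {m : ℕ} {U : Set (Fin m → ℂ)} {u : (Fin m → ℂ) → ℝ}
    (hu : ContinuousOn u U) {b : (Fin m → ℂ) → ℂ} (hb : L2loc U b) {φ : (Fin m → ℂ) → ℂ}
    (hφ : Tst U φ) (j : Fin m) :
    IntegrableOn (fun z => b z * star (db j φ z) * (Real.exp (-u z) : ℂ)) U := by
  obtain ⟨K, hK⟩ : ∃ K, K = tsupport φ := ⟨_, rfl⟩
  have hKc : IsCompact K := by rw [hK]; exact hφ.2.1
  have hKU : K ⊆ U := by rw [hK]; exact hφ.2.2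
  have huK : ContinuousOn u K := hu.mono hKU
  have hdc : Continuous (db j φ) := db_cont j hφ.1
  have hgc : ContinuousOn (fun z => star (db j φ z) * (Real.exp (-u z) : ℂ)) K := by
    apply ContinuousOn.mul
    · exact (continuous_star.comp hdc).continuousOn
    · exact Complex.continuous_ofReal.comp_continuousOn
        (Real.continuous_exp.comp_continuousOn huK.neg)
  obtain ⟨M, hM⟩ := hKc.exists_bound_of_continuousOn hgc
  have hKI : IntegrableOn (fun z => b z * star (db j φ z) * (Real.exp (-u z) : ℂ)) K := by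
    have hbK : AEStronglyMeasurable b (volume.restrict K) :=
      hb.1.mono_measure (Measure.restrict_mono hKU le_rfl)
    have hb2 : IntegrableOn (fun z => ‖b z‖ ^ 2) K := hb.2 K hKU hKc
    have h1 : IntegrableOn (fun _ : Fin m → ℂ => (1 : ℝ)) K :=
      integrableOn_const hKc.measure_lt_top.ne
    have h2 : IntegrableOn (fun z => |M| * (1 + ‖b z‖ ^ 2)) K := (h1.add hb2).const_mul _
    refine Integrable.mono' h2 ?_ ?_
    · have h3 : AEStronglyMeasurable (fun z => star (db j φ z) * (Real.exp (-u z) : ℂ))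
          (volume.restrict K) := hgc.aestronglyMeasurable hKc.measurableSet
      have h4 := hbK.mul h3
      refine h4.congr (Eventually.of_forall fun z => ?_)
      simp only [Pi.mul_apply]
      ring
    · refine (ae_restrict_iff' hKc.measurableSet).2 (Eventually.of_forall fun z hz => ?_)
      rw [mul_assoc, norm_mul]
      have h5 := hM z hz
      have h6 : ‖b z‖ ≤ 1 + ‖b z‖ ^ 2 := by nlinarith [sq_nonneg (‖b z‖ - 1), norm_nonneg (b z)]
      calc ‖b z‖ * ‖star (db j φ z) * (Real.exp (-u z) : ℂ)‖ ≤ (1 + ‖b z‖ ^ 2) * |M| :=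
            mul_le_mul h6 (h5.trans (le_abs_self M)) (norm_nonneg _) (by positivity)
        _ = |M| * (1 + ‖b z‖ ^ 2) := by ring
  have hs : Function.support (fun z => b z * star (db j φ z) * (Real.exp (-u z) : ℂ)) ⊆ K := by
    intro z hz
    by_contra h
    rw [hK] at h
    apply hz
    simp only
    rw [db_zero j φ z h]
    simp
  exact ((integrableOn_iff_integrable_of_support_subset hs).1 hKI).integrableOn

private lemma lin_int {m : ℕ} {U : Set (Fin m → ℂ)} {p q r : (Fin m → ℂ) → ℝ}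
    (hp : IntegrableOn p U) (hq : IntegrableOn q U) (hr : IntegrableOn r U) (t s b : ℝ) :
    IntegrableOn (fun z => (t * p z + q z / t) / 2 + (s * (b * r z) + q z / s) / 2) U ∧
    ∫ z in U, ((t * p z + q z / t) / 2 + (s * (b * r z) + q z / s) / 2) =
      (t * (∫ z in U, p z) + (∫ z in U, q z) / t) / 2 +
        (s * (b * ∫ z in U, r z) + (∫ z in U, q z) / s) / 2 := by
  have h1 : IntegrableOn (fun z => t * p z) U := hp.const_mul t
  have h2 : IntegrableOn (fun z => q z / t) U := hq.div_const t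
  have h3 : IntegrableOn (fun z => s * (b * r z)) U := (hr.const_mul b).const_mul s
  have h4 : IntegrableOn (fun z => q z / s) U := hq.div_const s
  have h5 : IntegrableOn (fun z => t * p z + q z / t) U := h1.add h2
  have h6 : IntegrableOn (fun z => s * (b * r z) + q z / s) U := h3.add h4
  have h7 : IntegrableOn (fun z => (t * p z + q z / t) / 2) U := h5.div_const 2
  have h8 : IntegrableOn (fun z => (s * (b * r z) + q z / s) / 2) U := h6.div_const 2
  refine ⟨h7.add h8, ?_⟩
  rw [integral_add h7 h8, integral_div, integral_div, integral_add h1 h2, integral_add h3 h4,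
    integral_const_mul, integral_const_mul, integral_const_mul, integral_div, integral_div]

theorem hPAI (hCUT : StCUT) (hMOM : StMOM) (hCAL : StCAL) : StPAI := by
  intro C hC β a G κ hβ ha hWT hhf hG hGb hκ hκi
  obtain ⟨B, q, hGB⟩ := hGb
  obtain ⟨χ, κc, hχ, hχ1, -, hκc, hκcI⟩ := hCUT C hC
  obtain ⟨hI, hT⟩ := hκcI q
  have hU := open_U C
  have hUm : MeasurableSet C.U := hU.measurableSet
  have huc : ContinuousOn C.u C.U := hC.usm.continuousOn
  have hpd : ∀ z ∈ C.U, ∀ ξ, 0 ≤ hf (hes C.u z) ξ := fun z hz ξ => hf_nonneg (hC.uhes z hz).1 ξ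
  have hsz : ∀ z, 0 ≤ C.sz z := fun z => Finset.sum_nonneg fun i _ => norm_nonneg _
  obtain ⟨A, hA⟩ : ∃ A : ℝ, A = ∫ z in C.U, κ z * Real.exp (-C.u z) := ⟨_, rfl⟩
  obtain ⟨H, hH⟩ : ∃ H : ℝ, H = ∫ z in C.U, hf (hes C.u z) (fun j => β j z) * Real.exp (-C.u z) :=
    ⟨_, rfl⟩
  have hA0 : 0 ≤ A := by
    rw [hA]
    refine setIntegral_nonneg hUm fun z hz => ?_
    exact mul_nonneg (hκ z hz).1 (Real.exp_pos _).le
  have hH0 : 0 ≤ H := by
    rw [hH]
    refine setIntegral_nonneg hUm fun z hz => ?_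
    exact mul_nonneg (hpd z hz _) (Real.exp_pos _).le
  -- the bound for the cut off function
  have key : ∀ (i : ℕ) (t s : ℝ), 0 < t → 0 < s →
      ‖inn C.U C.u a (fun z => cf (χ i) z * G z)‖ ≤ (t * A + H / t) / 2 +
        (s * (|B| * ∫ z in C.U, κc i z * (1 + C.sz z ^ q) * Real.exp (-C.u z) *
          ‖ev C.J z‖ ^ 2) + H / s) / 2 := by
    intro i t s ht hs
    have hφ : Tst C.U (fun z => cf (χ i) z * G z) :=
      tst_mul hU (hχ i).1 (hχ i).2.1 (hχ i).2.2.1 hG
    rw [hWT _ hφ]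
    unfold inn
    rw [← integral_finsetSum _ (fun j _ => int_test huc (hβ j) hφ j)]
    obtain ⟨hb1, hval⟩ := lin_int hκi hhf (hI i) t s |B|
    rw [hA, hH]
    rw [← hval]
    refine norm_integral_le_of_norm_le hb1 ?_
    refine (ae_restrict_iff' hUm).2 (Eventually.of_forall fun z hz => ?_)
    -- pointwise estimate
    have hdχ : DifferentiableAt ℝ (cf (χ i)) z :=
      ((Complex.ofRealCLM.contDiff.comp (hχ i).1).differentiable (by simp)) z
    have hdG : DifferentiableAt ℝ G z :=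
      (hG.contDiffAt (hU.mem_nhds hz)).differentiableAt (by simp)
    have hdb : ∀ j, db j (fun z => cf (χ i) z * G z) z =
        db j (cf (χ i)) z * G z + cf (χ i) z * db j G z := by
      intro j
      exact ((hCAL C.m j j (cf (χ i)) G z).1 hdχ hdG).2.2.2.1
    obtain ⟨X, hX⟩ : ∃ X : ℂ, X = ∑ j, db j (cf (χ i)) z * star (β j z) := ⟨_, rfl⟩
    obtain ⟨Y, hY⟩ : ∃ Y : ℂ, Y = ∑ j, db j G z * star (β j z) := ⟨_, rfl⟩
    have hsum : ∑ j, β j z * star (db j (fun z => cf (χ i) z * G z) z) *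
        (Real.exp (-C.u z) : ℂ) = star (X * G z + cf (χ i) z * Y) * (Real.exp (-C.u z) : ℂ) := by
      rw [← Finset.sum_mul]
      congr 1
      rw [hX, hY, Finset.sum_mul, Finset.mul_sum, ← Finset.sum_add_distrib, star_sum]
      refine Finset.sum_congr rfl fun j _ => ?_
      rw [hdb j]
      simp only [star_add, star_mul, star_star]
      ring
    rw [hsum, norm_mul, norm_star]
    have hexp : ‖(Real.exp (-C.u z) : ℂ)‖ = Real.exp (-C.u z) := by
      rw [Complex.norm_real, Real.norm_of_nonneg (Real.exp_pos _).le]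
    rw [hexp]
    have hh0 := hpd z hz (fun j => β j z)
    obtain ⟨h, hh⟩ : ∃ h : ℝ, h = hf (hes C.u z) (fun j => β j z) := ⟨_, rfl⟩
    rw [← hh] at hh0 ⊢
    have hYb : ‖Y‖ ≤ (t * κ z + h / t) / 2 := by
      refine amgm (norm_nonneg _) (hκ z hz).1 hh0 ht ?_
      rw [hY, hh]
      exact (hκ z hz).2 (fun j => β j z)
    have hXb : ‖X‖ ^ 2 ≤ κc i z * h := by
      rw [hX, hh]
      exact (hκc i z hz).2 (fun j => β j z)
    have hκ0 := (hκc i z hz).1
    have hGz := hGB z hz
    have hw0 : 0 ≤ (1 + C.sz z ^ q) * ‖ev C.J z‖ ^ 2 := by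
      have := hsz z
      positivity
    have hGz' : ‖G z‖ ^ 2 ≤ |B| * ((1 + C.sz z ^ q) * ‖ev C.J z‖ ^ 2) := by
      refine hGz.trans ?_
      rw [mul_assoc]
      exact mul_le_mul_of_nonneg_right (le_abs_self B) hw0
    have hXG : ‖X * G z‖ ≤ (s * (|B| * (κc i z * ((1 + C.sz z ^ q) * ‖ev C.J z‖ ^ 2))) + h / s) / 2 := by
      refine amgm (norm_nonneg _) (by positivity) hh0 hs ?_
      rw [norm_mul, mul_pow]
      calc ‖X‖ ^ 2 * ‖G z‖ ^ 2 ≤ (κc i z * h) * (|B| * ((1 + C.sz z ^ q) * ‖ev C.J z‖ ^ 2)) :=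
            mul_le_mul hXb hGz' (by positivity) (by positivity)
        _ = _ := by ring
    have hχY : ‖cf (χ i) z * Y‖ ≤ (t * κ z + h / t) / 2 := by
      rw [norm_mul]
      have h1 : ‖cf (χ i) z‖ ≤ 1 := by
        have h2 := (hχ i).2.2.2 z
        simp only [cf]
        rw [Complex.norm_real, Real.norm_of_nonneg h2.1]
        exact h2.2
      calc ‖cf (χ i) z‖ * ‖Y‖ ≤ 1 * ‖Y‖ := mul_le_mul_of_nonneg_right h1 (norm_nonneg _)
        _ ≤ _ := by rw [one_mul]; exact hYb
    have htot : ‖X * G z + cf (χ i) z * Y‖ ≤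
        (s * (|B| * (κc i z * ((1 + C.sz z ^ q) * ‖ev C.J z‖ ^ 2))) + h / s) / 2 +
        (t * κ z + h / t) / 2 := (norm_add_le _ _).trans (add_le_add hXG hχY)
    have hfin := mul_le_mul_of_nonneg_right htot (Real.exp_pos (-C.u z)).le
    refine hfin.trans (le_of_eq ?_)
    ring
  -- the limit of the left side
  have hlim : Tendsto (fun i => inn C.U C.u a (fun z => cf (χ i) z * G z)) atTop
      (𝓝 (inn C.U C.u a G)) := by
    unfold inn
    obtain ⟨_, _, hm, _⟩ := hMOM C hC
    have h0 := hm 0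
    have hq := hm q
    have hbd : IntegrableOn (fun z => (‖a z‖ ^ 2 * Real.exp (-C.u z) +
        B * (C.sz z ^ 0 * Real.exp (-C.u z) * ‖ev C.J z‖ ^ 2 +
          C.sz z ^ q * Real.exp (-C.u z) * ‖ev C.J z‖ ^ 2)) / 2) C.U :=
      (ha.2.add ((h0.add hq).const_mul B)).div_const 2
    have hGm : AEStronglyMeasurable G (volume.restrict C.U) :=
      hG.continuousOn.aestronglyMeasurable hUm
    have hem : AEStronglyMeasurable (fun z => (Real.exp (-C.u z) : ℂ)) (volume.restrict C.U) :=
      (Complex.continuous_ofReal.comp_continuousOn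
        (Real.continuous_exp.comp_continuousOn huc.neg)).aestronglyMeasurable hUm
    refine tendsto_integral_of_dominated_convergence _ ?_ hbd ?_ ?_
    · intro i
      have h1 : Continuous (cf (χ i)) := Complex.continuous_ofReal.comp (hχ i).1.continuous
      have h2 := (ha.1.mul (continuous_star.comp_aestronglyMeasurable
        (h1.aestronglyMeasurable.mul hGm))).mul hem
      exact h2
    · intro i
      refine (ae_restrict_iff' hUm).2 (Eventually.of_forall fun z hz => ?_)
      have hexp : ‖(Real.exp (-C.u z) : ℂ)‖ = Real.exp (-C.u z) := by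
        rw [Complex.norm_real, Real.norm_of_nonneg (Real.exp_pos _).le]
      rw [norm_mul, norm_mul, norm_star, norm_mul, hexp]
      have h1 : ‖cf (χ i) z‖ ≤ 1 := by
        have h2 := (hχ i).2.2.2 z
        simp only [cf]
        rw [Complex.norm_real, Real.norm_of_nonneg h2.1]
        exact h2.2
      have h3 := hGB z hz
      have h4 : ‖cf (χ i) z‖ * ‖G z‖ ≤ ‖G z‖ := by
        have := mul_le_mul_of_nonneg_right h1 (norm_nonneg (G z))
        linarith
      have h5 : ‖a z‖ * (‖cf (χ i) z‖ * ‖G z‖) ≤ (‖a z‖ ^ 2 + ‖G z‖ ^ 2) / 2 := by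
        have := mul_le_mul_of_nonneg_left h4 (norm_nonneg (a z))
        nlinarith [sq_nonneg (‖a z‖ - ‖G z‖)]
      have h6 : ‖a z‖ * (‖cf (χ i) z‖ * ‖G z‖) ≤
          (‖a z‖ ^ 2 + B * (1 + C.sz z ^ q) * ‖ev C.J z‖ ^ 2) / 2 := by linarith
      have h7 := mul_le_mul_of_nonneg_right h6 (Real.exp_pos (-C.u z)).le
      refine h7.trans (le_of_eq ?_)
      ring
    · refine (ae_restrict_iff' hUm).2 (Eventually.of_forall fun z hz => ?_)
      refine tendsto_const_nhds.congr' ?_
      filter_upwards [hχ1 z hz] with i hi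
      simp [cf, hi]
  -- conclusion
  have hx0 : 0 ≤ ‖inn C.U C.u a G‖ := norm_nonneg _
  have hfin : ∀ t : ℝ, 0 < t → ‖inn C.U C.u a G‖ ≤ (t * A + H / t) / 2 := by
    intro t ht
    have hs : ∀ s : ℝ, 0 < s → ‖inn C.U C.u a G‖ ≤ (t * A + H / t) / 2 + H / s / 2 := by
      intro s hs
      have h1 : Tendsto (fun i => (t * A + H / t) / 2 +
        (s * (|B| * ∫ z in C.U, κc i z * (1 + C.sz z ^ q) * Real.exp (-C.u z) *
          ‖ev C.J z‖ ^ 2) + H / s) / 2) atTop
          (𝓝 ((t * A + H / t) / 2 + (s * (|B| * 0) + H / s) / 2)) :=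
        (((((hT.const_mul |B|).const_mul s).add_const (H / s)).div_const 2).const_add _)
      have h2 := le_of_tendsto_of_tendsto' hlim.norm h1 (fun i => key i t s ht hs)
      simpa using h2
    have h3 : Tendsto (fun s : ℝ => (t * A + H / t) / 2 + H / s / 2) atTop
        (𝓝 ((t * A + H / t) / 2 + 0 / 2)) :=
      ((tendsto_const_nhds.div_atTop tendsto_id).div_const 2).const_add _
    have h4 : ‖inn C.U C.u a G‖ ≤ (t * A + H / t) / 2 + 0 / 2 :=
      ge_of_tendsto h3 (by
        filter_upwards [eventually_gt_atTop (0 : ℝ)] with s hs'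
        exact hs s hs')
    simpa using h4
  rw [← hA, ← hH]
  exact sq_le_of_forall hx0 hA0 hH0 hfin

end Pool.Agent.Helper6.KP
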