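import Pool.Agent.Helper68.KP.StS

/-!
# Project KP (MP_26be5b_ag): upper bound for the compression of a matrix exponential
-/

set_option autoImplicit false

namespace Pool.Agent.Helper6.KP

open Pool.Agent.Helper52.KP Pool.Agent.Helper68.KP Filter Topology Matrix
open scoped ComplexOrder

private lemma exp_form {N : ℕ} {A : Matrix (Fin N) (Fin N) ℂ} (hA : A.IsHermitian) :
    ∃ (Q : Matrix (Fin N) (Fin N) ℂ) (a : Fin N → ℝ), Qᴴ * Q = 1 ∧ Q * Qᴴ = 1 ∧
      A = Q * diagonal (fun j => (a j : ℂ)) * Qᴴ ∧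
      NormedSpace.exp A = Q * diagonal (fun j => ((Real.exp (a j) : ℝ) : ℂ)) * Qᴴ := by
  obtain ⟨Q, hQ⟩ : ∃ Q : Matrix (Fin N) (Fin N) ℂ, Q = hA.eigenvectorUnitary := ⟨_, rfl⟩
  have h1 : Qᴴ * Q = 1 := by
    rw [hQ]
    exact Unitary.coe_star_mul_self hA.eigenvectorUnitary
  have h2 : Q * Qᴴ = 1 := by
    rw [hQ]
    exact Unitary.coe_mul_star_self hA.eigenvectorUnitary
  have h3 : A = Q * diagonal (fun j => ((hA.eigenvalues j : ℝ) : ℂ)) * Qᴴ := by
    have h := hA.spectral_theorem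
    rw [Unitary.conjStarAlgAut_apply] at h
    rw [hQ]
    exact h
  refine ⟨Q, hA.eigenvalues, h1, h2, h3, ?_⟩
  have hu : IsUnit Q := by
    refine (Matrix.isUnit_iff_isUnit_det Q).2 ?_
    exact Matrix.isUnit_det_of_right_inverse h2
  have hi : Q⁻¹ = Qᴴ := Matrix.inv_eq_right_inv h2
  have h4 := Matrix.exp_conj Q (diagonal (fun j => ((hA.eigenvalues j : ℝ) : ℂ))) hu
  rw [hi, ← h3, Matrix.exp_diagonal] at h4
  rw [h4]
  congr 3
  funext j
  rw [Pi.coe_exp, ← Complex.exp_eq_exp_ℂ, Complex.ofReal_exp]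

private lemma hs_eq {N p : ℕ} (M : Matrix (Fin N) (Fin p) ℂ) : ((Mᴴ * M).trace).re = hs M := by
  unfold hs
  rw [Matrix.trace, Complex.re_sum, Finset.sum_comm]
  refine Finset.sum_congr rfl fun j _ => ?_
  rw [Matrix.diag_apply, Matrix.mul_apply, Complex.re_sum]
  refine Finset.sum_congr rfl fun i _ => ?_
  rw [Matrix.conjTranspose_apply, Complex.star_def, ← Complex.normSq_eq_conj_mul_self,
    Complex.ofReal_re, Complex.normSq_eq_norm_sq]

private lemma tr_diag {N p : ℕ} (C : Matrix (Fin N) (Fin p) ℂ) (b : Fin N → ℝ) :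
    ((Cᴴ * diagonal (fun j => (b j : ℂ)) * C).trace).re = ∑ j, b j * ∑ i, ‖C j i‖ ^ 2 := by
  have h : (Cᴴ * diagonal (fun j => (b j : ℂ)) * C).trace =
      ∑ j, (b j : ℂ) * ∑ i, (((‖C j i‖ ^ 2 : ℝ)) : ℂ) := by
    have h0 : ∀ i, (Cᴴ * diagonal (fun j => (b j : ℂ)) * C) i i =
        ∑ j, star (C j i) * (b j : ℂ) * C j i := by
      intro i
      rw [Matrix.mul_apply]
      refine Finset.sum_congr rfl fun j _ => ?_
      rw [Matrix.mul_diagonal, Matrix.conjTranspose_apply]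
    rw [Matrix.trace]
    simp only [Matrix.diag_apply, h0]
    rw [Finset.sum_comm]
    refine Finset.sum_congr rfl fun j _ => ?_
    rw [Finset.mul_sum]
    refine Finset.sum_congr rfl fun i _ => ?_
    have : star (C j i) * C j i = ((‖C j i‖ ^ 2 : ℝ) : ℂ) := by
      rw [Complex.star_def, ← Complex.normSq_eq_conj_mul_self, Complex.normSq_eq_norm_sq]
    rw [← this]
    ring
  rw [h]
  have h2 : ∑ j, (b j : ℂ) * ∑ i, (((‖C j i‖ ^ 2 : ℝ)) : ℂ) =
      ((∑ j, b j * ∑ i, ‖C j i‖ ^ 2 : ℝ) : ℂ) := by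
    push_cast
    rfl
  rw [h2, Complex.ofReal_re]

private lemma row_le {N p : ℕ} (C : Matrix (Fin N) (Fin p) ℂ) (hC : Cᴴ * C = 1) (j : Fin N) :
    ∑ i, ‖C j i‖ ^ 2 ≤ 1 := by
  obtain ⟨P, hP⟩ : ∃ P, P = C * Cᴴ := ⟨_, rfl⟩
  have h1 : P * P = P := by
    rw [hP]
    calc C * Cᴴ * (C * Cᴴ) = C * (Cᴴ * C) * Cᴴ := by simp only [Matrix.mul_assoc]
      _ = C * Cᴴ := by rw [hC, Matrix.mul_one]
  have h2 : Pᴴ = P := by
    rw [hP, Matrix.conjTranspose_mul, Matrix.conjTranspose_conjTranspose]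
  obtain ⟨s, hs⟩ : ∃ s : ℝ, s = ∑ i, ‖C j i‖ ^ 2 := ⟨_, rfl⟩
  have h3 : P j j = (s : ℂ) := by
    rw [hP, Matrix.mul_apply, hs]
    push_cast
    refine Finset.sum_congr rfl fun i _ => ?_
    rw [Matrix.conjTranspose_apply, Complex.star_def, Complex.mul_conj, Complex.normSq_eq_norm_sq]
    push_cast
    rfl
  have h4 : (s : ℂ) = ∑ k, ((‖P j k‖ ^ 2 : ℝ) : ℂ) := by
    rw [← h3]
    conv_lhs => rw [← h1]
    rw [Matrix.mul_apply]
    refine Finset.sum_congr rfl fun k _ => ?_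
    have h5 : P k j = star (P j k) := by
      conv_lhs => rw [← h2]
      rw [Matrix.conjTranspose_apply]
    rw [h5, Complex.star_def, Complex.mul_conj, Complex.normSq_eq_norm_sq]
  have h5 : s = ∑ k, ‖P j k‖ ^ 2 := by
    exact_mod_cast h4
  have h6 : ‖P j j‖ ^ 2 ≤ s := by
    rw [h5]
    exact Finset.single_le_sum (f := fun k => ‖P j k‖ ^ 2) (fun k _ => by positivity)
      (Finset.mem_univ j)
  have hs0 : 0 ≤ s := by rw [hs]; positivity
  rw [h3, Complex.norm_real, Real.norm_of_nonneg hs0] at h6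
  rw [← hs]
  nlinarith

private lemma log_det_le {p : ℕ} {M : Matrix (Fin p) (Fin p) ℂ} (hM : M.PosDef) :
    Real.log M.det.re ≤ M.trace.re - p := by
  have h1 : M.det.re = ∏ i, hM.1.eigenvalues i := by
    rw [hM.1.det_eq_prod_eigenvalues]
    have : (∏ i, ((hM.1.eigenvalues i : ℝ) : ℂ)) = ((∏ i, hM.1.eigenvalues i : ℝ) : ℂ) := by
      push_cast
      rfl
    have h2 : (∏ i, (RCLike.ofReal (hM.1.eigenvalues i) : ℂ)) =
      ((∏ i, hM.1.eigenvalues i : ℝ) : ℂ) := this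
    rw [h2, Complex.ofReal_re]
  have h2 : M.trace.re = ∑ i, hM.1.eigenvalues i := by
    rw [hM.1.trace_eq_sum_eigenvalues]
    have : (∑ i, ((hM.1.eigenvalues i : ℝ) : ℂ)) = ((∑ i, hM.1.eigenvalues i : ℝ) : ℂ) := by
      push_cast
      rfl
    have h2 : (∑ i, (RCLike.ofReal (hM.1.eigenvalues i) : ℂ)) =
      ((∑ i, hM.1.eigenvalues i : ℝ) : ℂ) := this
    rw [h2, Complex.ofReal_re]
  rw [h1, h2, Real.log_prod (fun i _ => (hM.eigenvalues_pos i).ne')]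
  have h3 : ∑ i, Real.log (hM.1.eigenvalues i) ≤ ∑ i, (hM.1.eigenvalues i - 1) :=
    Finset.sum_le_sum fun i _ => Real.log_le_sub_one_of_pos (hM.eigenvalues_pos i)
  rw [Finset.sum_sub_distrib] at h3
  simpa using h3

theorem hUPR : StUPR := by
  intro N p A V hA hV hsA
  obtain ⟨Q, a, h1, h2, h3, h4⟩ := exp_form hA
  obtain ⟨C, hCe⟩ : ∃ C, C = Qᴴ * V := ⟨_, rfl⟩
  have hC : Cᴴ * C = 1 := by
    rw [hCe, Matrix.conjTranspose_mul, Matrix.conjTranspose_conjTranspose]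
    calc Vᴴ * Q * (Qᴴ * V) = Vᴴ * (Q * Qᴴ) * V := by simp only [Matrix.mul_assoc]
      _ = 1 := by rw [h2, Matrix.mul_one, hV]
  have hconj : ∀ D : Matrix (Fin N) (Fin N) ℂ, Vᴴ * (Q * D * Qᴴ) * V = Cᴴ * D * C := by
    intro D
    rw [hCe, Matrix.conjTranspose_mul, Matrix.conjTranspose_conjTranspose]
    simp only [Matrix.mul_assoc]
  -- the sum of the squares of the eigenvalues
  have hsq : ∑ j, a j ^ 2 = hs A := by
    rw [← hs_eq, hA.eq]
    have e1 : A * A = Q * diagonal (fun j => ((a j ^ 2 : ℝ) : ℂ)) * Qᴴ := by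
      conv_lhs => rw [h3]
      calc Q * diagonal (fun j => (a j : ℂ)) * Qᴴ * (Q * diagonal (fun j => (a j : ℂ)) * Qᴴ)
          = Q * diagonal (fun j => (a j : ℂ)) * (Qᴴ * Q) * diagonal (fun j => (a j : ℂ)) * Qᴴ := by
            simp only [Matrix.mul_assoc]
        _ = Q * (diagonal (fun j => (a j : ℂ)) * diagonal (fun j => (a j : ℂ))) * Qᴴ := by
            rw [h1, Matrix.mul_one]
            simp only [Matrix.mul_assoc]
        _ = Q * diagonal (fun j => ((a j ^ 2 : ℝ) : ℂ)) * Qᴴ := by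
            rw [Matrix.diagonal_mul_diagonal]
            congr 3
            funext j
            push_cast
            ring
    rw [e1, Matrix.trace_mul_comm, ← Matrix.mul_assoc, h1, Matrix.one_mul, Matrix.trace_diagonal]
    have : ∑ j, ((a j ^ 2 : ℝ) : ℂ) = ((∑ j, a j ^ 2 : ℝ) : ℂ) := by
      push_cast
      rfl
    rw [this, Complex.ofReal_re]
  have ha1 : ∀ j, |a j| ≤ 1 := by
    intro j
    have e1 : a j ^ 2 ≤ ∑ j, a j ^ 2 :=
      Finset.single_le_sum (f := fun j => a j ^ 2) (fun i _ => sq_nonneg _) (Finset.mem_univ j)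
    have e2 : a j ^ 2 ≤ 1 := by linarith
    exact (sq_le_one_iff_abs_le_one _).1 e2
  -- positivity
  have hpos : (Vᴴ * NormedSpace.exp A * V).PosDef := by
    rw [h4, hconj]
    refine Matrix.PosDef.conjTranspose_mul_mul_same ?_ ?_
    · refine Matrix.PosDef.diagonal fun j => ?_
      have : (0 : ℝ) < Real.exp (a j) := Real.exp_pos _
      exact_mod_cast this
    · intro x y hxy
      have e1 : Cᴴ *ᵥ (C *ᵥ x) = Cᴴ *ᵥ (C *ᵥ y) := by
        have : C *ᵥ x = C *ᵥ y := hxy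
        rw [this]
      rw [Matrix.mulVec_mulVec, Matrix.mulVec_mulVec, hC, Matrix.one_mulVec,
        Matrix.one_mulVec] at e1
      exact e1
  refine (log_det_le hpos).trans ?_
  have t1 : ((Vᴴ * NormedSpace.exp A * V).trace).re = ∑ j, Real.exp (a j) * ∑ i, ‖C j i‖ ^ 2 := by
    rw [h4, hconj, tr_diag]
  have t2 : ((Vᴴ * A * V).trace).re = ∑ j, a j * ∑ i, ‖C j i‖ ^ 2 := by
    conv_lhs => rw [h3]
    rw [hconj, tr_diag]
  have t3 : (p : ℝ) = ∑ j, ∑ i, ‖C j i‖ ^ 2 := by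
    have e1 := hs_eq C
    rw [hC, Matrix.trace_one, Fintype.card_fin] at e1
    rw [← show hs C = ∑ j, ∑ i, ‖C j i‖ ^ 2 from rfl, ← e1]
    simp
  rw [t1, t2, ← hsq]
  have key : ∑ j, (Real.exp (a j) * ∑ i, ‖C j i‖ ^ 2) - ∑ j, ∑ i, ‖C j i‖ ^ 2 ≤
      ∑ j, a j * ∑ i, ‖C j i‖ ^ 2 + ∑ j, a j ^ 2 := by
    rw [← Finset.sum_sub_distrib, ← Finset.sum_add_distrib]
    refine Finset.sum_le_sum fun j _ => ?_
    have w0 : 0 ≤ ∑ i, ‖C j i‖ ^ 2 := by positivity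
    have w1 := row_le C hC j
    have e1 := (abs_le.1 (Real.abs_exp_sub_one_sub_id_le (ha1 j))).2
    have e2 : (Real.exp (a j) - 1 - a j) * ∑ i, ‖C j i‖ ^ 2 ≤ a j ^ 2 * ∑ i, ‖C j i‖ ^ 2 :=
      mul_le_mul_of_nonneg_right e1 w0
    have e3 : a j ^ 2 * ∑ i, ‖C j i‖ ^ 2 ≤ a j ^ 2 * 1 :=
      mul_le_mul_of_nonneg_left w1 (sq_nonneg _)
    nlinarith
  rw [t3]
  exact key

end Pool.Agent.Helper6.KP
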