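import Pool.Agent.Helper52.KP.StG

/-!
# Project KP (MP_26be5b_ag): compactness
-/

set_option autoImplicit false

namespace Pool.Agent.Helper6.KP

open Pool.Agent.Helper67.NO MeasureTheory Filter Pool.Agent.Helper52.KP
open scoped ContDiff ComplexOrder Topology

universe u

section aux

variable {g : Type u} [LieRing g] [LieAlgebra ℂ g] [FiniteDimensional ℂ g]

private lemma co_symm (v : Fin (Module.finrank ℂ g) → ℂ) :
    co ((Module.finBasis ℂ g).equivFun.symm v) = v := by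
  have h := (Module.finBasis ℂ g).equivFun.apply_symm_apply v
  funext i
  have h2 := congrFun h i
  rw [Module.Basis.equivFun_apply] at h2
  exact h2

private lemma symm_co (x : g) : (Module.finBasis ℂ g).equivFun.symm (co x) = x := by
  have h : co x = (Module.finBasis ℂ g).equivFun x := by
    funext i
    rw [Module.Basis.equivFun_apply]
    rfl
  rw [h]
  exact (Module.finBasis ℂ g).equivFun.symm_apply_apply x

private lemma mns_cont (m : ℕ) :
    Continuous (fun v : Fin (Module.finrank ℂ g) → ℂ =>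
      mns m ((Module.finBasis ℂ g).equivFun.symm v)) := by
  unfold mns
  refine continuous_finsetSum _ fun a _ => continuous_finsetSum _ fun b _ => ?_
  refine continuous_norm.comp ?_
  unfold mnr
  refine Continuous.matrix_det ?_
  refine continuous_matrix fun i j => ?_
  have h : Continuous ((LinearMap.proj (R := ℂ) (φ := fun _ => ℂ) (b j) ∘ₗ
      LinearMap.proj (R := ℂ) (φ := fun _ => Fin (Module.finrank ℂ g) → ℂ) (a i) ∘ₗ
      (LinearMap.toMatrix (Module.finBasis ℂ g) (Module.finBasis ℂ g)).toLinearMap ∘ₗ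
      (LieAlgebra.ad ℂ g : g →ₗ[ℂ] Module.End ℂ g) ∘ₗ
      (Module.finBasis ℂ g).equivFun.symm.toLinearMap :
        (Fin (Module.finrank ℂ g) → ℂ) →ₗ[ℂ] ℂ)) :=
    LinearMap.continuous_of_finiteDimensional _
  exact h

private lemma size_eq (x : g) : size x = ∑ i, ‖co x i‖ := rfl

private lemma ext_pos {x₀ : g} (f : OO x₀ → ℂ) {x : g} (h : Orb x₀ x) :
    ext f x = f ⟨x, h⟩ := by
  unfold ext
  rw [dif_pos h]

end aux

theorem hCPC (hCLO : StCLO.{u}) (hTRN : StTRN.{u}) (hORB : StORB.{u}) : StCPC.{u} := by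
  intro g _ _ _ _ x₀ hx₀ hnil C r δ hδ
  apply IsSeqCompact.isCompact
  intro z hz
  -- the values in coordinates have a convergent subsequence
  have hb : ∀ i, co (C.Φ (z i)) ∈ Metric.closedBall (0 : Fin (Module.finrank ℂ g) → ℂ) (max r 0) := by
    intro i
    rw [mem_closedBall_zero_iff, pi_norm_le_iff_of_nonneg (le_max_right _ _)]
    intro j
    have h1 := (hz i).2.1
    rw [size_eq] at h1
    have h2 : ‖co (C.Φ (z i)) j‖ ≤ ∑ l, ‖co (C.Φ (z i)) l‖ :=
      Finset.single_le_sum (f := fun l => ‖co (C.Φ (z i)) l‖) (fun l _ => norm_nonneg _)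
        (Finset.mem_univ j)
    exact (h2.trans h1).trans (le_max_left _ _)
  obtain ⟨v, -, φ, hφ, hv⟩ := (isCompact_closedBall (0 : Fin (Module.finrank ℂ g) → ℂ)
    (max r 0)).tendsto_subseq hb
  obtain ⟨x, hx⟩ : ∃ x : g, x = (Module.finBasis ℂ g).equivFun.symm v := ⟨_, rfl⟩
  have hcx : co x = v := by rw [hx]; exact co_symm v
  have hyx : Tendsto (fun i => co (C.Φ (z (φ i)))) atTop (𝓝 (co x)) := by
    rw [hcx]
    exact hv
  -- the minors
  have hmn : Tendsto (fun i => mns C.m (C.Φ (z (φ i)))) atTop (𝓝 (mns C.m x)) := by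
    have h1 := ((mns_cont (g := g) C.m).tendsto (co x)).comp hyx
    simp only [Function.comp_def, symm_co] at h1
    exact h1
  have hmx : δ ≤ mns C.m x := ge_of_tendsto' hmn fun i => (hz (φ i)).2.2.2
  have hsx : size x ≤ r := by
    have h1 : Tendsto (fun i => size (C.Φ (z (φ i)))) atTop (𝓝 (size x)) := by
      simp only [size_eq]
      refine tendsto_finsetSum _ fun j _ => ?_
      exact ((tendsto_pi_nhds.1 hyx) j).norm
    exact le_of_tendsto' h1 fun i => (hz (φ i)).2.1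
  have horb : ∀ i, Orb x₀ (C.Φ (z (φ i))) := fun i => C.orb _ (hz (φ i)).1
  have hpos : 0 < mns (rk x₀) x := by
    rw [← C.hrk]
    exact lt_of_lt_of_le hδ hmx
  obtain ⟨hxo, hfr⟩ := (hCLO g x₀ hx₀ hnil).2 x (fun i => C.Φ (z (φ i))) horb hpos hyx
  obtain ⟨-, -, ho3, ho4, -, ho6, -⟩ := hORB g
  have hrk : C.m = rk x := by
    rw [C.hrk]
    exact ((ho3 x₀ x hxo).2.1).symm
  obtain ⟨X, hX⟩ : ∃ X : Fin C.m → g, Frm x X := by
    rw [hrk]
    exact ho6 x
  obtain ⟨w, hw0, hwe⟩ := hfr C.m X hX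
  obtain ⟨ε, δ', a, b, τ, hε, -, -, -, hτd, hτ, -, -⟩ := hTRN g x₀ hx₀ hnil C ⟨x, hxo⟩ X hX
  simp only at hτd hτ
  have hch0 : chart x X 0 = x := (ho4 C.m x X).2.1
  -- the function `p₁` in the chart
  have hPd : Differentiable ℂ (fun w : Fin C.m → ℂ => C.p₁ ⟨chart x X w, Orb.step _ _ hxo⟩) :=
    C.p1mem.1 ⟨x, hxo⟩ C.m X
  have hPe : ∀ w : Fin C.m → ℂ, ext C.p₁ (chart x X w) = C.p₁ ⟨chart x X w, Orb.step _ _ hxo⟩ :=
    fun w => ext_pos C.p₁ (Orb.step _ _ hxo)
  have hPt : Tendsto (fun i => ext C.p₁ (chart x X (w i))) atTop (𝓝 (ext C.p₁ x)) := by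
    have h1 := (hPd.continuous.tendsto 0).comp hw0
    have h2 : ext C.p₁ x = C.p₁ ⟨chart x X 0, Orb.step _ _ hxo⟩ := by
      rw [← hPe 0, hch0]
    rw [h2]
    simp only [hPe]
    exact h1
  have hP1 : ∀ᶠ i in atTop, δ ≤ ‖ext C.p₁ (chart x X (w i))‖ := by
    filter_upwards [hwe] with i hi
    rw [← hi]
    exact (hz (φ i)).2.2.1
  have hPx : δ ≤ ‖ext C.p₁ x‖ := ge_of_tendsto hPt.norm hP1
  have hPx0 : ext C.p₁ (chart x X 0) ≠ 0 := by
    rw [hch0]
    intro h
    rw [h, norm_zero] at hPx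
    linarith
  obtain ⟨h01, h02, -⟩ := hτ 0 (by simpa using hε) hPx0
  rw [hch0] at h02
  refine ⟨τ 0, ⟨h01, ?_, ?_, ?_⟩, φ, hφ, ?_⟩
  · rw [h02]; exact hsx
  · rw [h02]; exact hPx
  · rw [h02]; exact hmx
  · have hc : ContinuousWithinAt τ {w | ‖w‖ < ε ∧ ext C.p₁ (chart x X w) ≠ 0} 0 :=
      (hτd 0 ⟨by simpa using hε, hPx0⟩).continuousWithinAt
    have hws : ∀ᶠ i in atTop, w i ∈ {w | ‖w‖ < ε ∧ ext C.p₁ (chart x X w) ≠ 0} := by
      have h1 : ∀ᶠ i in atTop, ‖w i‖ < ε := by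
        have h2 := hw0.norm
        rw [norm_zero] at h2
        exact h2.eventually (gt_mem_nhds hε)
      filter_upwards [h1, hP1] with i hi1 hi2
      refine ⟨hi1, fun h => ?_⟩
      rw [h, norm_zero] at hi2
      linarith
    have ht : Tendsto (fun i => τ (w i)) atTop (𝓝 (τ 0)) :=
      hc.tendsto.comp (tendsto_nhdsWithin_iff.2 ⟨hw0, hws⟩)
    refine ht.congr' ?_
    filter_upwards [hws, hwe] with i hi1 hi2
    obtain ⟨h1, h2, -⟩ := hτ (w i) hi1.1 hi1.2
    refine C.inj _ _ h1 (hz (φ i)).1 ?_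
    rw [h2, ← hi2]
    rfl

end Pool.Agent.Helper6.KP
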